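import Mathlib
import Pool.Agent.L5helper54.Static.Rational

/-!
# Succinct NSR and explicit NSR are polynomially equivalent over every field

The key fact: if a linear combination of `N` monomials (cubes) in the variables `x_j` and `x̄_j` is
zero modulo the ideal `I`, then it is a combination of at most `N ^ 2` instances
`μ (x_j + x̄_j - 1)` of the duality axioms. Proof: take a variable `x_j` on which the cubes differ.
They fall into three groups: those which contain `x_j`, those which contain `x̄_j`, and those which
contain neither. Eliminate the smallest of the three groups, of size `z ≤ x, y`, by one instance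
of the axiom for each of its members. This leaves two vanishing combinations with `x + z` and
`y + z` members, and `(x + z) ^ 2 + (y + z) ^ 2 + z ≤ (x + y + z) ^ 2`.
-/

namespace Pool.Agent.Results.MP_f11ae4_lc.SuccinctNSREquiv

open Pool.Agent.L5helper54.Static

/-- **Q1, positive answer.** Over every field, succinct NSR and NSR are polynomially equivalent, if
the size is the number of monomials of the multipliers; moreover the explicit refutation has size
at most `s + (s + 1) ^ 2`. Over the rational numbers they are also polynomially equivalent if the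
bit sizes of the coefficients are added to the size. -/
theorem result :
    (∀ (F : Type*) [Field F],
      PolyEquivalent (NSR F fun _ => 0) (SuccinctNSR F fun _ => 0) ∧
      ∀ (n : ℕ) (Φ : CNF n) (s : ℕ), SuccinctNSR F (fun _ => 0) n Φ s →
        ∃ s' : ℕ, s' ≤ s + (s + 1) ^ 2 ∧ NSR F (fun _ => 0) n Φ s') ∧
    PolyEquivalent (NSR ℚ bitSize) (SuccinctNSR ℚ bitSize) := by
  refine ⟨fun F _ => ⟨⟨?_, ?_⟩, fun n Φ s h => nsr_simulates n Φ s h⟩, ?_, ?_⟩
  · refine ⟨Polynomial.X + (Polynomial.X + 1) ^ 2, fun n Φ s h => ?_⟩
    obtain ⟨s', h1, h2⟩ := nsr_simulates n Φ s h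
    refine ⟨s', h1.trans ?_, h2⟩
    simp only [Polynomial.eval_add, Polynomial.eval_X, Polynomial.eval_pow, Polynomial.eval_one]
    gcongr <;> omega
  · refine ⟨Polynomial.X, fun n Φ s h => ?_⟩
    obtain ⟨s', h1, h2⟩ := succinct_of_nsr _ n Φ s h
    exact ⟨s', h1.trans (by simp), h2⟩
  · refine ⟨(Polynomial.X + (Polynomial.X + 1) ^ 2) * (5 * Polynomial.X + 3),
      fun n Φ s h => ?_⟩
    obtain ⟨s', h1, h2⟩ := nsr_rat_simulates n Φ s h
    refine ⟨s', h1.trans ?_, h2⟩
    simp only [Polynomial.eval_add, Polynomial.eval_X, Polynomial.eval_pow, Polynomial.eval_one,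
      Polynomial.eval_mul, Polynomial.eval_ofNat]
    gcongr <;> omega
  · refine ⟨Polynomial.X, fun n Φ s h => ?_⟩
    obtain ⟨s', h1, h2⟩ := succinct_of_nsr _ n Φ s h
    exact ⟨s', h1.trans (by simp), h2⟩

end Pool.Agent.Results.MP_f11ae4_lc.SuccinctNSREquiv
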