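import Mathlib
import Pool.Agent.L5helper54.Static.Rational

/-!
# Succinct and explicit Sherali–Adams (with dual variables) are polynomially equivalent

See `Pool/Agent/L5helper54/Static/Core.lean`: a vanishing combination of `N` cubes is a combination
of at most `N ^ 2` instances of the duality axioms `x_j + x̄_j - 1`.
-/

namespace Pool.Agent.Results.MP_f11ae4_lc.SuccinctSAEquiv

open Pool.Agent.L5helper54.Static

/-- **Q2, positive answer.** Succinct SA is polynomially equivalent to SA, where the size is the
number of monomials of the conic juntas plus the bit sizes of their coefficients. -/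
theorem result : PolyEquivalent SA SuccinctSA := by
  refine ⟨?_, ?_⟩
  · refine ⟨(Polynomial.X + 2 * (Polynomial.X + 1) ^ 2) * (5 * Polynomial.X + 3),
      fun n Φ s h => ?_⟩
    obtain ⟨s', h1, h2⟩ := sa_simulates n Φ s h
    refine ⟨s', h1.trans ?_, h2⟩
    simp only [Polynomial.eval_add, Polynomial.eval_X, Polynomial.eval_pow, Polynomial.eval_one,
      Polynomial.eval_mul, Polynomial.eval_ofNat]
    gcongr <;> omega
  · refine ⟨Polynomial.X, fun n Φ s h => ?_⟩
    obtain ⟨s', h1, h2⟩ := succinct_of_sa n Φ s h
    exact ⟨s', h1.trans (by simp), h2⟩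

end Pool.Agent.Results.MP_f11ae4_lc.SuccinctSAEquiv
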